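import Pool.Agent.TH612.GS.Stm

/-!
Project GS: replacement of the factors of a product of functions of shifted variables, one at a
time (REP), and the mean square of such a product over a short interval (REP2).
-/

set_option autoImplicit false

namespace Pool.Agent.TH521.GS

open MeasureTheory Set
open scoped ENNReal
open Pool.Agent.TH612.GS (mP S_REP S_REP2)

noncomputable section

instance sf (ι : Type) [Fintype ι] (T : ℝ) : SigmaFinite (mP ι T) := by
  unfold mP
  infer_instance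

lemma mor {X : Type} [MeasurableSpace X] [TopologicalSpace X] [OpensMeasurableSpace X]
    {h : X → ℝ} (hc : Continuous h) : Measurable fun x => ENNReal.ofReal (h x) :=
  ENNReal.measurable_ofReal.comp hc.measurable

/-- the first variable -/
lemma lint_prod {n : ℕ} (T : ℝ) (F : (Fin (n + 1) → ℝ) → ℝ≥0∞) (hF : Measurable F) :
    ∫⁻ γ, F γ ∂(mP (Fin (n + 1)) T) =
      ∫⁻ p : ℝ × (Fin n → ℝ), F (Fin.cons p.1 p.2)
        ∂((volume.restrict (Icc 0 T)).prod (mP (Fin n) T)) := by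
  have hmp := (measurePreserving_piFinSuccAbove
    (fun _ : Fin (n + 1) => (volume.restrict (Icc 0 T) : Measure ℝ)) 0).symm
  have h1 := hmp.lintegral_comp hF
  unfold mP
  rw [← h1]
  refine lintegral_congr fun p => ?_
  congr 1
  exact (Fin.insertNth_zero' p.1 p.2 : _)

/-- an arbitrary index type -/
lemma lint_equiv {ι : Type} [Fintype ι] {n : ℕ} (e : ι ≃ Fin n) (T : ℝ)
    (F : (ι → ℝ) → ℝ≥0∞) (hF : Measurable F) :
    ∫⁻ γ, F γ ∂(mP ι T) = ∫⁻ γ, F (fun i => γ (e i)) ∂(mP (Fin n) T) := by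
  have hmp := measurePreserving_piCongrLeft (α := fun _ : ι => ℝ)
    (fun _ : ι => (volume.restrict (Icc 0 T) : Measure ℝ)) e.symm
  have h1 := hmp.lintegral_comp hF
  unfold mP
  rw [← h1]
  refine lintegral_congr fun p => ?_
  congr 1
  funext i
  obtain ⟨j, rfl⟩ := e.symm.surjective i
  rw [MeasurableEquiv.piCongrLeft_apply_apply, Equiv.apply_symm_apply]

lemma lint1 {A B : ℝ} (hAB : A ≤ B) {h : ℝ → ℝ} (hc : Continuous h) (h0 : ∀ y, 0 ≤ h y) :
    ∫⁻ y, ENNReal.ofReal (h y) ∂(volume.restrict (Icc A B)) =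
      ENNReal.ofReal (∫ y in A..B, h y) := by
  rw [intervalIntegral.integral_of_le hAB, ← integral_Icc_eq_integral_Ioc,
    ofReal_integral_eq_lintegral_ofReal hc.continuousOn.integrableOn_Icc
      (Filter.Eventually.of_forall h0)]

lemma tonelli {X : Type} [MeasurableSpace X] [TopologicalSpace X] [SecondCountableTopology X]
    [BorelSpace X] (ν : Measure X) [SFinite ν] {w : ℝ → ℝ} (hw : Continuous w)
    (hw0 : ∀ t, 0 ≤ w t) {G : ℝ → X → ℝ} (hG : Continuous (Function.uncurry G))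
    (hG0 : ∀ t x, 0 ≤ G t x) {A B C : ℝ} (hAB : A ≤ B) (hC : 0 ≤ C)
    (h : ∀ t ∈ Icc A B, ∫⁻ x, ENNReal.ofReal (G t x) ∂ν ≤ ENNReal.ofReal C) :
    ∫⁻ x, ENNReal.ofReal (∫ t in A..B, w t * G t x) ∂ν ≤
      ENNReal.ofReal (C * ∫ t in A..B, w t) := by
  have hGx : ∀ x, Continuous fun t => G t x := fun x =>
    hG.comp (by fun_prop : Continuous fun t : ℝ => (t, x))
  have hGt : ∀ t, Continuous fun x => G t x := fun t =>
    hG.comp (by fun_prop : Continuous fun x : X => (t, x))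
  have e1 : ∀ x, ENNReal.ofReal (∫ t in A..B, w t * G t x) =
      ∫⁻ t, ENNReal.ofReal (w t * G t x) ∂(volume.restrict (Icc A B)) := fun x =>
    (lint1 hAB (hw.mul (hGx x)) fun t => mul_nonneg (hw0 t) (hG0 t x)).symm
  simp_rw [e1]
  have hm : Measurable (Function.uncurry fun (x : X) (t : ℝ) => ENNReal.ofReal (w t * G t x)) := by
    apply ENNReal.measurable_ofReal.comp
    have : Continuous fun p : X × ℝ => w p.2 * G p.2 p.1 :=
      (hw.comp continuous_snd).mul (hG.comp (by fun_prop : Continuous fun p : X × ℝ => (p.2, p.1)))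
    exact this.measurable
  rw [lintegral_lintegral_swap hm.aemeasurable]
  have e2 : ∀ t, ∫⁻ x, ENNReal.ofReal (w t * G t x) ∂ν =
      ENNReal.ofReal (w t) * ∫⁻ x, ENNReal.ofReal (G t x) ∂ν := by
    intro t
    simp_rw [ENNReal.ofReal_mul (hw0 t)]
    rw [lintegral_const_mul _ (mor (hGt t))]
  simp_rw [e2]
  calc ∫⁻ t in Icc A B, ENNReal.ofReal (w t) * ∫⁻ x, ENNReal.ofReal (G t x) ∂ν
      ≤ ∫⁻ t in Icc A B, ENNReal.ofReal (w t) * ENNReal.ofReal C :=
        setLIntegral_mono' measurableSet_Icc fun t ht => mul_le_mul' le_rfl (h t ht)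
    _ = ENNReal.ofReal (C * ∫ t in A..B, w t) := by
        rw [lintegral_mul_const _ (mor hw),
          lint1 hAB hw hw0, mul_comm, ← ENNReal.ofReal_mul hC]

/-- the product of the second moments -/
lemma pt {T V : ℝ} (hT : 0 ≤ T) (hV0 : 0 ≤ V) (t : ℝ) : ∀ (n : ℕ) (f : Fin n → ℝ → ℂ),
    (∀ i, Continuous (f i)) → (∀ i, ∫ y in (0:ℝ)..T, ‖f i (t + y)‖ ^ 2 ≤ V) →
    ∫⁻ γ, ENNReal.ofReal (∏ i, ‖f i (t + γ i)‖ ^ 2) ∂(mP (Fin n) T) ≤ ENNReal.ofReal (V ^ n) := by
  intro n
  induction n with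
  | zero =>
    intro f _ _
    simp [mP, Measure.pi_empty_univ]
  | succ n ih =>
    intro f hf hV
    have hc : Continuous fun γ : Fin (n + 1) → ℝ => ∏ i, ‖f i (t + γ i)‖ ^ 2 := by fun_prop
    rw [lint_prod T _ (mor hc)]
    have hcc : Continuous fun p : ℝ × (Fin n → ℝ) => (Fin.cons p.1 p.2 : Fin (n + 1) → ℝ) :=
      Continuous.finCons (A := fun _ => ℝ) continuous_fst continuous_snd
    have hcomp : Continuous fun p : ℝ × (Fin n → ℝ) =>
        ∏ i, ‖f i (t + (Fin.cons p.1 p.2 : Fin (n + 1) → ℝ) i)‖ ^ 2 := hc.comp hcc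
    rw [lintegral_prod _ (mor hcomp).aemeasurable]
    have e1 : ∀ (y : ℝ) (γ : Fin n → ℝ), ∏ i, ‖f i (t + (Fin.cons y γ : Fin (n + 1) → ℝ) i)‖ ^ 2 =
        ‖f 0 (t + y)‖ ^ 2 * ∏ i : Fin n, ‖f i.succ (t + γ i)‖ ^ 2 := by
      intro y γ
      rw [Fin.prod_univ_succ]
      simp only [Fin.cons_zero, Fin.cons_succ]
    have e2 : ∀ y : ℝ, ∫⁻ γ : Fin n → ℝ,
        ENNReal.ofReal (∏ i, ‖f i (t + (Fin.cons y γ : Fin (n + 1) → ℝ) i)‖ ^ 2) ∂(mP (Fin n) T) ≤
        ENNReal.ofReal (‖f 0 (t + y)‖ ^ 2) * ENNReal.ofReal (V ^ n) := by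
      intro y
      simp_rw [e1, ENNReal.ofReal_mul (sq_nonneg ‖f 0 (t + y)‖)]
      rw [lintegral_const_mul _ (mor (by fun_prop : Continuous
        fun γ : Fin n → ℝ => ∏ i : Fin n, ‖f i.succ (t + γ i)‖ ^ 2))]
      exact mul_le_mul' le_rfl (ih (fun i => f i.succ) (fun i => hf i.succ) fun i => hV i.succ)
    refine (lintegral_mono e2).trans ?_
    have hc0 : Continuous fun y : ℝ => ‖f 0 (t + y)‖ ^ 2 := by
      have := hf 0
      fun_prop
    rw [lintegral_mul_const _ (mor hc0),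
      lint1 hT hc0 fun y => sq_nonneg _, ← ENNReal.ofReal_mul
        (intervalIntegral.integral_nonneg hT fun y _ => sq_nonneg _)]
    apply ENNReal.ofReal_le_ofReal
    rw [pow_succ, mul_comm (V ^ n)]
    exact mul_le_mul_of_nonneg_right (hV 0) (by positivity)

/-- the coefficients -/
def bb (K V : ℝ) (n : ℕ) : ℝ := (2 ^ (n + 1) - 2) * K * V ^ (n - 1)

lemma bb_succ (K V : ℝ) (n : ℕ) :
    bb K V (n + 1) = 2 * (K * V ^ n) + 2 * (V * bb K V n) := by
  unfold bb
  cases n with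
  | zero =>
    rw [show (0 + 1 - 1 : ℕ) = 0 from rfl]
    ring
  | succ n =>
    simp only [Nat.add_sub_cancel]
    ring

lemma bb_nonneg {K V : ℝ} (hK : 0 ≤ K) (hV : 0 ≤ V) (n : ℕ) : 0 ≤ bb K V n := by
  unfold bb
  have : (2 : ℝ) ≤ 2 ^ (n + 1) := by
    rw [pow_succ]
    have : (1 : ℝ) ≤ 2 ^ n := one_le_pow₀ (by norm_num)
    linarith
  have h1 : (0 : ℝ) ≤ 2 ^ (n + 1) - 2 := by linarith
  positivity

lemma bb_le {K V : ℝ} (hK : 0 ≤ K) (hV : 0 ≤ V) (n : ℕ) : bb K V n ≤ 4 ^ n * K * V ^ (n - 1) := by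
  unfold bb
  have h1 : (2 : ℝ) ^ (n + 1) - 2 ≤ 4 ^ n := by
    rw [pow_succ, show (4 : ℝ) = 2 * 2 by norm_num, mul_pow]
    nlinarith [sq_nonneg ((2 : ℝ) ^ n - 1)]
  gcongr

theorem rep_fin {T S K V : ℝ} (hS : 0 ≤ S) (hST : S ≤ T) (hK : 0 ≤ K) (hV : 0 ≤ V) :
    ∀ (n : ℕ) (f g : Fin n → ℝ → ℂ), (∀ i, Continuous (f i)) → (∀ i, Continuous (g i)) →
    (∀ i, ∀ R : ℝ → ℂ, Continuous R →
      ∫ y in (0:ℝ)..T, ‖∫ t in (0:ℝ)..S, (f i (t + y) - g i (t + y)) * R t‖ ^ 2 ≤
        K * ∫ t in (0:ℝ)..S, ‖R t‖ ^ 2) →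
    (∀ i, ∀ t ∈ Icc 0 S, ∫ y in (0:ℝ)..T, ‖f i (t + y)‖ ^ 2 ≤ V) →
    (∀ i, ∀ t ∈ Icc 0 S, ∫ y in (0:ℝ)..T, ‖g i (t + y)‖ ^ 2 ≤ V) →
    ∀ R : ℝ → ℂ, Continuous R →
    ∫⁻ γ, ENNReal.ofReal (‖∫ t in (0:ℝ)..S, R t *
      (∏ i, f i (t + γ i) - ∏ i, g i (t + γ i))‖ ^ 2) ∂(mP (Fin n) T) ≤
      ENNReal.ofReal (bb K V n * ∫ t in (0:ℝ)..S, ‖R t‖ ^ 2) := by
  have hT : 0 ≤ T := hS.trans hST
  intro n
  induction n with
  | zero =>
    intro f g _ _ _ _ _ R _
    simp
  | succ n ih =>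
    intro f g hf hg hop hVf hVg R hR
    have hf0 := hf 0
    have hg0 := hg 0
    have hcc : Continuous fun p : ℝ × (Fin n → ℝ) => (Fin.cons p.1 p.2 : Fin (n + 1) → ℝ) :=
      Continuous.finCons (A := fun _ => ℝ) continuous_fst continuous_snd
    -- the two parts
    obtain ⟨D1, hD1⟩ : ∃ D1 : ℝ × (Fin n → ℝ) → ℂ, D1 = fun p => ∫ t in (0:ℝ)..S,
      (f 0 (t + p.1) - g 0 (t + p.1)) * (R t * ∏ i : Fin n, f i.succ (t + p.2 i)) := ⟨_, rfl⟩
    obtain ⟨D2, hD2⟩ : ∃ D2 : ℝ × (Fin n → ℝ) → ℂ, D2 = fun p => ∫ t in (0:ℝ)..S,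
      (R t * g 0 (t + p.1)) * (∏ i : Fin n, f i.succ (t + p.2 i) -
        ∏ i : Fin n, g i.succ (t + p.2 i)) := ⟨_, rfl⟩
    have hc1 : Continuous D1 := by
      rw [hD1]
      apply intervalIntegral.continuous_parametric_intervalIntegral_of_continuous'
      unfold Function.uncurry
      fun_prop
    have hc2 : Continuous D2 := by
      rw [hD2]
      apply intervalIntegral.continuous_parametric_intervalIntegral_of_continuous'
      unfold Function.uncurry
      fun_prop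
    have hcD : Continuous fun γ : Fin (n + 1) → ℝ => ‖∫ t in (0:ℝ)..S, R t *
        (∏ i, f i (t + γ i) - ∏ i, g i (t + γ i))‖ ^ 2 := by
      apply Continuous.pow
      apply Continuous.norm
      apply intervalIntegral.continuous_parametric_intervalIntegral_of_continuous'
      unfold Function.uncurry
      fun_prop
    have hsplit : ∀ p : ℝ × (Fin n → ℝ), (∫ t in (0:ℝ)..S, R t *
        (∏ i, f i (t + (Fin.cons p.1 p.2 : Fin (n + 1) → ℝ) i) -
          ∏ i, g i (t + (Fin.cons p.1 p.2 : Fin (n + 1) → ℝ) i))) = D1 p + D2 p := by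
      intro p
      rw [hD1, hD2]
      dsimp only
      rw [← intervalIntegral.integral_add]
      · apply intervalIntegral.integral_congr
        intro t _
        dsimp only
        rw [Fin.prod_univ_succ, Fin.prod_univ_succ]
        simp only [Fin.cons_zero, Fin.cons_succ]
        ring
      · apply Continuous.intervalIntegrable
        fun_prop
      · apply Continuous.intervalIntegrable
        fun_prop
    have hle : ∀ p : ℝ × (Fin n → ℝ), ENNReal.ofReal (‖∫ t in (0:ℝ)..S, R t *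
        (∏ i, f i (t + (Fin.cons p.1 p.2 : Fin (n + 1) → ℝ) i) -
          ∏ i, g i (t + (Fin.cons p.1 p.2 : Fin (n + 1) → ℝ) i))‖ ^ 2) ≤
        ENNReal.ofReal 2 * ENNReal.ofReal (‖D1 p‖ ^ 2) +
          ENNReal.ofReal 2 * ENNReal.ofReal (‖D2 p‖ ^ 2) := by
      intro p
      rw [hsplit, ← ENNReal.ofReal_mul (by norm_num), ← ENNReal.ofReal_mul (by norm_num),
        ← ENNReal.ofReal_add (by positivity) (by positivity)]
      apply ENNReal.ofReal_le_ofReal
      have h1 := norm_add_le (D1 p) (D2 p)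
      have h2 : ‖D1 p + D2 p‖ ^ 2 ≤ (‖D1 p‖ + ‖D2 p‖) ^ 2 :=
        pow_le_pow_left₀ (norm_nonneg _) h1 2
      nlinarith [sq_nonneg (‖D1 p‖ - ‖D2 p‖)]
    have hm1 : Measurable fun p : ℝ × (Fin n → ℝ) => ENNReal.ofReal (‖D1 p‖ ^ 2) :=
      mor (hc1.norm.pow 2)
    have hm2 : Measurable fun p : ℝ × (Fin n → ℝ) => ENNReal.ofReal (‖D2 p‖ ^ 2) :=
      mor (hc2.norm.pow 2)
    -- part 1
    have hp1 : ∫⁻ p, ENNReal.ofReal (‖D1 p‖ ^ 2)
        ∂((volume.restrict (Icc 0 T)).prod (mP (Fin n) T)) ≤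
        ENNReal.ofReal (K * V ^ n * ∫ t in (0:ℝ)..S, ‖R t‖ ^ 2) := by
      rw [lintegral_prod_symm _ hm1.aemeasurable]
      have e1 : ∀ γ : Fin n → ℝ, ∫⁻ y, ENNReal.ofReal (‖D1 (y, γ)‖ ^ 2)
          ∂(volume.restrict (Icc 0 T)) ≤ ENNReal.ofReal K *
            ENNReal.ofReal (∫ t in (0:ℝ)..S, ‖R t‖ ^ 2 * ∏ i : Fin n, ‖f i.succ (t + γ i)‖ ^ 2) := by
        intro γ
        have hcy : Continuous fun y : ℝ => ‖D1 (y, γ)‖ ^ 2 :=
          (hc1.comp (by fun_prop : Continuous fun y : ℝ => (y, γ))).norm.pow 2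
        rw [lint1 hT hcy fun y => sq_nonneg _, ← ENNReal.ofReal_mul hK]
        apply ENNReal.ofReal_le_ofReal
        have h1 := hop 0 (fun t => R t * ∏ i : Fin n, f i.succ (t + γ i)) (by fun_prop)
        rw [hD1]
        refine h1.trans (le_of_eq ?_)
        congr 1
        apply intervalIntegral.integral_congr
        intro t _
        dsimp only
        rw [norm_mul, norm_prod, mul_pow, Finset.prod_pow]
      refine (lintegral_mono e1).trans ?_
      have hG : Continuous (Function.uncurry fun (t : ℝ) (γ : Fin n → ℝ) =>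
          ∏ i : Fin n, ‖f i.succ (t + γ i)‖ ^ 2) := by
        unfold Function.uncurry
        fun_prop
      rw [lintegral_const_mul']
      · rw [mul_assoc, ENNReal.ofReal_mul hK]
        refine mul_le_mul' le_rfl ?_
        exact tonelli (mP (Fin n) T) (hR.norm.pow 2) (fun t => sq_nonneg _) hG
          (fun t γ => Finset.prod_nonneg fun i _ => sq_nonneg _) hS (by positivity)
          fun t ht => pt hT hV t n (fun i => f i.succ) (fun i => hf i.succ)
            fun i => hVf i.succ t ht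
      · exact ENNReal.ofReal_ne_top
    -- part 2
    have hp2 : ∫⁻ p, ENNReal.ofReal (‖D2 p‖ ^ 2)
        ∂((volume.restrict (Icc 0 T)).prod (mP (Fin n) T)) ≤
        ENNReal.ofReal (bb K V n * (V * ∫ t in (0:ℝ)..S, ‖R t‖ ^ 2)) := by
      rw [lintegral_prod _ hm2.aemeasurable]
      have hb := bb_nonneg hK hV n
      have e1 : ∀ y : ℝ, ∫⁻ γ, ENNReal.ofReal (‖D2 (y, γ)‖ ^ 2) ∂(mP (Fin n) T) ≤
          ENNReal.ofReal (bb K V n) *
            ENNReal.ofReal (∫ t in (0:ℝ)..S, ‖R t‖ ^ 2 * ‖g 0 (t + y)‖ ^ 2) := by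
        intro y
        have h1 := ih (fun i => f i.succ) (fun i => g i.succ) (fun i => hf i.succ)
          (fun i => hg i.succ) (fun i => hop i.succ) (fun i => hVf i.succ) (fun i => hVg i.succ)
          (fun t => R t * g 0 (t + y)) (by fun_prop)
        rw [hD2]
        refine h1.trans (le_of_eq ?_)
        rw [ENNReal.ofReal_mul hb]
        congr 3
        funext t
        rw [norm_mul, mul_pow]
      refine (lintegral_mono e1).trans ?_
      rw [lintegral_const_mul']
      · rw [ENNReal.ofReal_mul hb]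
        refine mul_le_mul' le_rfl ?_
        have hG : Continuous (Function.uncurry fun (t : ℝ) (y : ℝ) => ‖g 0 (t + y)‖ ^ 2) := by
          unfold Function.uncurry
          fun_prop
        refine tonelli (volume.restrict (Icc 0 T)) (hR.norm.pow 2) (fun t => sq_nonneg _) hG
          (fun t y => sq_nonneg _) hS hV fun t ht => ?_
        rw [lint1 hT (by fun_prop) fun y => sq_nonneg _]
        exact ENNReal.ofReal_le_ofReal (hVg 0 t ht)
      · exact ENNReal.ofReal_ne_top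
    have hI : 0 ≤ ∫ t in (0:ℝ)..S, ‖R t‖ ^ 2 :=
      intervalIntegral.integral_nonneg hS fun t _ => sq_nonneg _
    have hb := bb_nonneg hK hV n
    rw [lint_prod T _ (mor hcD)]
    refine (lintegral_mono hle).trans ?_
    rw [lintegral_add_left (hm1.const_mul _), lintegral_const_mul _ hm1,
      lintegral_const_mul _ hm2]
    refine (add_le_add (mul_le_mul' le_rfl hp1) (mul_le_mul' le_rfl hp2)).trans ?_
    rw [← ENNReal.ofReal_mul (by norm_num), ← ENNReal.ofReal_mul (by norm_num),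
      ← ENNReal.ofReal_add (by positivity) (by positivity), bb_succ]
    apply ENNReal.ofReal_le_ofReal
    apply le_of_eq
    ring

theorem t_REP : S_REP := by
  intro ι _ f g T S K V hS hST hK hV hf hg hop hVf hVg
  set n := Fintype.card ι with hn
  have e : ι ≃ Fin n := Fintype.equivFin ι
  have hcD : Continuous fun γ : ι → ℝ => ‖∫ t in (0:ℝ)..S,
      (∏ i, f i (t + γ i) - ∏ i, g i (t + γ i))‖ ^ 2 := by
    apply Continuous.pow
    apply Continuous.norm
    apply intervalIntegral.continuous_parametric_intervalIntegral_of_continuous'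
    unfold Function.uncurry
    fun_prop
  rw [lint_equiv e T _ (mor hcD)]
  have h1 := rep_fin hS hST hK hV n (fun j => f (e.symm j)) (fun j => g (e.symm j))
    (fun j => hf _) (fun j => hg _) (fun j => hop _) (fun j => hVf _) (fun j => hVg _)
    (fun _ => 1) continuous_const
  have e1 : ∀ (h : ι → ℝ → ℂ) (γ : Fin n → ℝ) (t : ℝ),
      ∏ j, h (e.symm j) (t + γ j) = ∏ i, h i (t + γ (e i)) := by
    intro h γ t
    rw [← Equiv.prod_comp e]
    simp
  simp only [e1, one_mul, norm_one, one_pow, intervalIntegral.integral_const, sub_zero, smul_eq_mul,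
    mul_one] at h1
  refine h1.trans (ENNReal.ofReal_le_ofReal ?_)
  exact mul_le_mul_of_nonneg_right (bb_le hK hV n) hS

/-- Cauchy-Schwarz on an interval -/
lemma cs {A B : ℝ} (hAB : A ≤ B) {h : ℝ → ℝ} (hc : Continuous h) :
    (∫ t in A..B, h t) ^ 2 ≤ (B - A) * ∫ t in A..B, h t ^ 2 := by
  rcases hAB.eq_or_lt with rfl | hlt
  · simp
  · have hd : 0 < B - A := by linarith
    set c : ℝ := (∫ t in A..B, h t) / (B - A) with hcdef
    have h1 : 0 ≤ ∫ t in A..B, (h t - c) ^ 2 :=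
      intervalIntegral.integral_nonneg hAB fun t _ => sq_nonneg _
    have h2 : ∫ t in A..B, (h t - c) ^ 2 =
        (∫ t in A..B, h t ^ 2) - 2 * c * (∫ t in A..B, h t) + c ^ 2 * (B - A) := by
      have e : ∀ t, (h t - c) ^ 2 = h t ^ 2 - 2 * c * h t + c ^ 2 := fun t => by ring
      simp_rw [e]
      rw [intervalIntegral.integral_add, intervalIntegral.integral_sub,
        intervalIntegral.integral_const_mul, intervalIntegral.integral_const, smul_eq_mul]
      · ring
      · exact (hc.pow 2).intervalIntegrable _ _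
      · exact (continuous_const.mul hc).intervalIntegrable _ _
      · exact ((hc.pow 2).sub (continuous_const.mul hc)).intervalIntegrable _ _
      · exact continuous_const.intervalIntegrable _ _
    rw [h2] at h1
    have h3 : (∫ t in A..B, h t) = c * (B - A) := by
      rw [hcdef, div_mul_cancel₀ _ hd.ne']
    rw [h3] at h1 ⊢
    nlinarith

theorem t_REP2 : S_REP2 := by
  intro ι _ f T A B V hA hAB hBT hV hf hVf
  have hT : 0 ≤ T := hA.trans (hAB.trans hBT)
  set n := Fintype.card ι with hn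
  have e : ι ≃ Fin n := Fintype.equivFin ι
  have hcD : Continuous fun γ : ι → ℝ => (∫ t in A..B, ‖∏ i, f i (t + γ i)‖) ^ 2 := by
    apply Continuous.pow
    apply intervalIntegral.continuous_parametric_intervalIntegral_of_continuous'
    unfold Function.uncurry
    fun_prop
  rw [lint_equiv e T _ (mor hcD)]
  have e1 : ∀ (γ : Fin n → ℝ) (t : ℝ),
      ∏ i, f i (t + γ (e i)) = ∏ j, f (e.symm j) (t + γ j) := by
    intro γ t
    rw [← Equiv.prod_comp e]
    simp
  have hle : ∀ γ : Fin n → ℝ, ENNReal.ofReal ((∫ t in A..B, ‖∏ i, f i (t + γ (e i))‖) ^ 2) ≤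
      ENNReal.ofReal (∫ t in A..B, (B - A) * ∏ j, ‖f (e.symm j) (t + γ j)‖ ^ 2) := by
    intro γ
    apply ENNReal.ofReal_le_ofReal
    simp_rw [e1]
    refine (cs hAB (by fun_prop)).trans (le_of_eq ?_)
    rw [← intervalIntegral.integral_const_mul]
    apply intervalIntegral.integral_congr
    intro t _
    dsimp only
    rw [norm_prod, Finset.prod_pow]
  refine (lintegral_mono hle).trans ?_
  have hG : Continuous (Function.uncurry fun (t : ℝ) (γ : Fin n → ℝ) =>
      ∏ j, ‖f (e.symm j) (t + γ j)‖ ^ 2) := by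
    unfold Function.uncurry
    fun_prop
  have hd : 0 ≤ B - A := by linarith
  refine (tonelli (mP (Fin n) T) (w := fun _ => B - A) continuous_const (fun _ => hd) hG
    (fun t γ => Finset.prod_nonneg fun i _ => sq_nonneg _) hAB (pow_nonneg hV n)
    fun t ht => pt hT hV t n (fun j => f (e.symm j)) (fun j => hf _) fun j => hVf _ t
      ⟨hA.trans ht.1, ht.2.trans hBT⟩).trans (le_of_eq ?_)
  congr 1
  rw [intervalIntegral.integral_const, smul_eq_mul]
  ring

end

end Pool.Agent.TH521.GS
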